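import Pool.Agent.H.MP_f66848_co.Main

namespace Pool.Agent.H.MP_f0eba7_co
open Finset Pool.Agent.H.MP_f66848_co

variable {V : Type} [Fintype V] [DecidableEq V]

def conf (A : Finset V) (f : V → ℕ) : Finset V := A.filter (fun a => ∃ v, v ≠ a ∧ f v = f a)

lemma conf_lt {A : Finset V} {f g : V → ℕ} {a : V} (ha : a ∈ conf A f)
    (h1 : ∀ x ∈ A, x ≠ a → g x = f x) (h0 : ∀ x ∈ A, g a ≠ f x)
    (h2 : ∀ y, y ∉ A → (g y = f y ∧ g y ≠ g a) ∨ g y = f a ∨ ∀ x ∈ A, g y ≠ g x) :
    (conf A g).card < (conf A f).card := by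
  have haA := (mem_filter.1 ha).1
  have h3 : ∀ v, v ≠ a → g v ≠ g a := fun v hv e => by
    by_cases p : v ∈ A
    · exact h0 v p (by rw [← e, h1 v p hv])
    · rcases h2 v p with q | q | q
      · exact q.2 e
      · exact h0 a haA (by rw [← e, q])
      · exact q a haA e
  refine card_lt_card ⟨fun x hx => ?_, fun h => ?_⟩
  · obtain ⟨xA, y, hy, e⟩ := mem_filter.1 hx
    have xa : x ≠ a := fun p => h3 y (p ▸ hy) (p ▸ e)
    have ya : y ≠ a := fun p => h3 x xa (p ▸ e.symm)
    refine mem_filter.2 ⟨xA, ?_⟩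
    by_cases p : y ∈ A
    · exact ⟨y, hy, by rw [← h1 y p ya, e, h1 x xA xa]⟩
    · rcases h2 y p with q | q | q
      · exact ⟨y, hy, by rw [← q.1, e, h1 x xA xa]⟩
      · exact ⟨a, xa.symm, by rw [← q, e, h1 x xA xa]⟩
      · exact absurd e (q x xA)
  · obtain ⟨-, y, hy, e⟩ := mem_filter.1 (h ha)
    exact h3 y hy e

lemma step {k : ℕ} {L : V → Finset ℕ} (hL : ∀ v, (L v).card = k) {A : Finset V}
    (hk : Fintype.card V + A.card ≤ 2 * k) {f : V → ℕ} (hf : Bal k L f)
    {a : V} (ha : a ∈ conf A f) : ∃ g, Bal k L g ∧ (conf A g).card < (conf A f).card := by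
  obtain ⟨haA, b, hba, hb⟩ := mem_filter.1 ha
  set c := f a with hc
  have c2 : cnt f c = 2 := le_antisymm (hf.2 c).1 (two_le_cnt hba hb rfl)
  have cbig : k < mult L c := by
    by_contra h
    have := (hf.2 c).2.1 (by omega)
    omega
  set D := A.image f with hD
  have hAc : Aᶜ.card + A.card = Fintype.card V := card_compl_add_card A
  have hDc : D.card + (Aᶜ.erase b).card < Fintype.card V := by
    by_cases p : b ∈ A
    · have : D ⊆ (A.erase b).image f := by
        intro d hd
        obtain ⟨x, hx, rfl⟩ := mem_image.1 hd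
        by_cases e : x = b
        · exact mem_image.2 ⟨a, mem_erase.2 ⟨hba.symm, haA⟩, by rw [e, hb]⟩
        · exact mem_image_of_mem _ (mem_erase.2 ⟨e, hx⟩)
      have q := (card_le_card this).trans card_image_le
      rw [card_erase_of_mem p] at q
      have := card_erase_le (s := Aᶜ) (a := b)
      have := card_pos.2 ⟨a, haA⟩
      omega
    · have q : D.card ≤ A.card := card_image_le
      rw [card_erase_of_mem (mem_compl.2 p)]
      have := card_pos.2 ⟨b, mem_compl.2 p⟩
      omega
  have hDc' : D.card ≤ A.card := card_image_le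
  obtain ⟨c', hc', hc1⟩ : ∃ c' ∈ L a \ D, cnt f c' ≤ 1 := by
    by_contra h
    push Not at h
    have e1 : 2 * (L a \ D).card ≤ ∑ d ∈ L a \ D, cnt f d := by
      rw [mul_comm, ← smul_eq_mul]
      exact card_nsmul_le_sum _ _ _ h
    have e2 : ∑ d ∈ L a \ D, cnt f d = (univ.filter (fun v => f v ∈ L a \ D)).card := by
      rw [card_eq_sum_card_fiberwise (f := f) (t := L a \ D)
        (fun v hv => mem_coe.2 (mem_filter.1 (mem_coe.1 hv)).2)]
      refine sum_congr rfl (fun d hd => ?_)
      unfold cnt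
      congr 1
      ext v
      simp only [mem_filter, mem_univ, true_and]
      exact ⟨fun e => ⟨e ▸ hd, e⟩, fun e => e.2⟩
    have e3 : univ.filter (fun v => f v ∈ L a \ D) ⊆ Aᶜ.erase b := by
      intro v hv
      have q := (mem_sdiff.1 (mem_filter.1 hv).2).2
      refine mem_erase.2 ⟨fun e => q ?_, mem_compl.2 (fun p => q (mem_image_of_mem _ p))⟩
      rw [e, hb]
      exact mem_image_of_mem _ haA
    have e4 := card_le_card e3
    have e5 := le_card_sdiff D (L a)
    rw [hL] at e5
    omega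
  obtain ⟨hc'L, hc'D⟩ := mem_sdiff.1 hc'
  have c'A : ∀ x ∈ A, c' ≠ f x := fun x hx e => hc'D (e ▸ mem_image_of_mem _ hx)
  have cc' : c' ≠ c := c'A a haA
  set f1 := Function.update f a c' with hf1
  have u1 := cnt_update f a c'
  rw [← hf1, ← hc] at u1
  have f1a : f1 a = c' := Function.update_self _ _ _
  have f1x : ∀ x, x ≠ a → f1 x = f x := fun x hx => Function.update_of_ne hx _ _
  have f1y : ∀ y, y ∉ A → f1 y = f y := fun y hy => f1x y (fun e => hy (e ▸ haA))
  have f1L : ∀ v, f1 v ∈ L v := fun v => by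
    by_cases e : v = a
    · rw [e, f1a]; exact hc'L
    · rw [f1x v e]; exact hf.1 v
  by_cases h0 : ∀ y, f y ≠ c'
  · have z : cnt f c' = 0 := cnt_zero h0
    refine ⟨f1, hf.change f1L (fun e => ?_), conf_lt ha (fun x _ => f1x x)
      (fun x hx => f1a ▸ c'A x hx) (fun y hy => Or.inl ⟨f1y y hy, ?_⟩)⟩
    · have := u1 e
      split_ifs at this with p q q
      · omega
      · subst p; omega
      · subst q; omega
      · omega
    · rw [f1y y hy, f1a]; exact h0 y
  push Not at h0
  obtain ⟨b', hb'⟩ := h0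
  have b'A : b' ∉ A := fun p => c'A b' p hb'.symm
  have only : ∀ y, y ≠ b' → f y ≠ c' := fun y hy e => by
    have := two_le_cnt hy e hb'
    omega
  set D1 := A.image f1 with hD1
  have hD1c : D1.card ≤ A.card := card_image_le
  have nD1 : ∀ d, d ∉ D1 → ∀ x ∈ A, d ≠ f1 x := fun d hd x hx e =>
    hd (e ▸ mem_image_of_mem _ hx)
  have two : ∀ d ∈ L b', ∃ f2 : V → ℕ, (∀ v, f2 v ∈ L v) ∧
      (∀ x, x ≠ b' → f2 x = f1 x) ∧ f2 b' = d ∧
      ∀ e, cnt f2 e + (if c = e then 1 else 0) = cnt f e + (if d = e then 1 else 0) := by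
    intro d hd
    refine ⟨Function.update f1 b' d, fun v => ?_, fun x hx => Function.update_of_ne hx _ _,
      Function.update_self _ _ _, fun e => ?_⟩
    · by_cases e : v = b'
      · rw [e, Function.update_self]; exact hd
      · rw [Function.update_of_ne e]; exact f1L v
    · have p := cnt_update f1 b' d e
      rw [f1y b' b'A, hb'] at p
      have q := u1 e
      omega
  have fin : ∀ g : V → ℕ, (∀ x ∈ A, g x = f1 x) →
      (∀ y, y ∉ A → (y ≠ b' ∧ g y = f y) ∨ g y = c ∨ ∀ x ∈ A, g y ≠ f1 x) →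
      (conf A g).card < (conf A f).card := by
    intro g g1 g2
    refine conf_lt ha (fun x xA hx => by rw [g1 x xA, f1x x hx])
      (fun x hx => by rw [g1 a haA, f1a]; exact c'A x hx) (fun y hy => ?_)
    rcases g2 y hy with p | p | p
    · exact Or.inl ⟨p.2, by rw [p.2, g1 a haA, f1a]; exact only y p.1⟩
    · exact Or.inr (Or.inl p)
    · exact Or.inr (Or.inr (fun x hx => by rw [g1 x hx]; exact p x hx))
  have Ab' : ∀ x ∈ A, x ≠ b' := fun x hx e => b'A (e ▸ hx)
  by_cases hA : ∃ d ∈ L b', d = c ∨ ((∀ x ∈ A, d ≠ f1 x) ∧ cnt f d = 0)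
  · obtain ⟨d, hd, hd2⟩ := hA
    obtain ⟨f2, p1, p2, p4, p5⟩ := two d hd
    refine ⟨f2, hf.change p1 (fun e => ?_), fin f2 (fun x hx => p2 x (Ab' x hx)) (fun y hy => ?_)⟩
    · have := p5 e
      split_ifs at this with p q q
      · omega
      · subst p; omega
      · subst q
        rcases hd2 with r | r
        · exact absurd r.symm p
        · omega
      · omega
    · by_cases e : y = b'
      · right; rw [e, p4]; exact hd2.imp id (fun r => r.1)
      · exact Or.inl ⟨e, by rw [p2 y e, f1y y hy]⟩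
  push Not at hA
  have hcb : c ∉ L b' := fun h => (hA c h).1 rfl
  set U := Aᶜ.filter (fun y => f y ∈ L b' \ D1) with hU
  set W := Aᶜ.filter (fun y => c ∈ L y) with hW
  have hUb : b' ∉ U := fun h => (mem_sdiff.1 (mem_filter.1 h).2).2
    (mem_image.2 ⟨a, haA, by rw [f1a, hb']⟩)
  have hUc : (L b' \ D1).card ≤ U.card := by
    refine card_le_card_of_surjOn f (fun d hd => ?_)
    obtain ⟨d1, d2⟩ := mem_sdiff.1 (mem_coe.1 hd)
    obtain ⟨p, q⟩ := hA d d1
    obtain ⟨v, hv⟩ := card_pos.1 (Nat.pos_of_ne_zero (q (nD1 d d2)))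
    have hv := (mem_filter.1 hv).2
    by_cases vA : v ∈ A
    · by_cases e : v = a
      · exact absurd (by rw [← hv, e]) p
      · exact absurd (by rw [f1x v e, hv]) (nD1 d d2 v vA)
    · exact ⟨v, mem_coe.2 (mem_filter.2 ⟨mem_compl.2 vA, hv ▸ mem_coe.1 hd⟩), hv⟩
  have hWc : mult L c ≤ A.card + W.card := by
    have : univ.filter (fun v => c ∈ L v) ⊆ A ∪ W := by
      intro v hv
      by_cases vA : v ∈ A
      · exact mem_union_left _ vA
      · exact mem_union_right _ (mem_filter.2 ⟨mem_compl.2 vA, (mem_filter.1 hv).2⟩)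
    exact (card_le_card this).trans (card_union_le _ _)
  obtain ⟨u, hu1, hu2⟩ : ∃ u ∈ U, u ∈ W := by
    by_contra h
    push Not at h
    have d1 : Disjoint (insert b' U) W := by
      rw [disjoint_left]
      intro y hy hy'
      rcases mem_insert.1 hy with e | e
      · exact hcb (e ▸ (mem_filter.1 hy').2)
      · exact h y e hy'
    have d2 : insert b' U ∪ W ⊆ Aᶜ :=
      union_subset (insert_subset (mem_compl.2 b'A) (filter_subset _ _)) (filter_subset _ _)
    have d2 := card_le_card d2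
    rw [card_union_of_disjoint d1, card_insert_of_notMem hUb] at d2
    have e5 := le_card_sdiff D1 (L b')
    rw [hL] at e5
    omega
  obtain ⟨d1, d2⟩ := mem_sdiff.1 (mem_filter.1 hu1).2
  have uA : u ∉ A := mem_compl.1 (mem_filter.1 hu1).1
  have ub : u ≠ b' := fun e => hUb (e ▸ hu1)
  obtain ⟨f2, p1, p2, p4, p5⟩ := two _ d1
  refine ⟨Function.update f2 u c, hf.change (fun v => ?_) (fun e => ?_),
    fin _ (fun x hx => ?_) (fun y hy => ?_)⟩
  · by_cases e : v = u
    · rw [e, Function.update_self]; exact (mem_filter.1 hu2).2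
    · rw [Function.update_of_ne e]; exact p1 v
  · have p := cnt_update f2 u c e
    rw [p2 u ub, f1y u uA] at p
    have q := p5 e
    omega
  · rw [Function.update_of_ne (show x ≠ u from fun e => uA (e ▸ hx)), p2 x (Ab' x hx)]
  · by_cases e : y = u
    · right; left; rw [e, Function.update_self]
    · rw [Function.update_of_ne e]
      by_cases e' : y = b'
      · right; right; rw [e', p4]; exact nD1 _ d2
      · exact Or.inl ⟨e', by rw [p2 y e', f1y y hy]⟩

lemma upper {k : ℕ} (G : SimpleGraph V) {A : Finset V} (ha : A.Nonempty)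
    (hG : ∀ u v, G.Adj u v → u ∈ A ∨ v ∈ A) (hk : Fintype.card V + A.card ≤ 2 * k) :
    PropChoosable G k := by
  intro L hL
  have := card_pos.2 ha
  have hm : ∀ c, mult L c < 2 * k := fun c => by
    have := card_le_univ (univ.filter (fun v => c ∈ L v))
    unfold mult
    omega
  have key : ∀ r : ℕ, ∀ f, Bal k L f → (conf A f).card ≤ r → ∃ g, Bal k L g ∧ conf A g = ∅ := by
    intro r
    induction r with
    | zero => exact fun f hf h => ⟨f, hf, card_eq_zero.1 (by omega)⟩
    | succ r ih =>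
      intro f hf h
      rcases (conf A f).eq_empty_or_nonempty with e | ⟨a, e⟩
      · exact ⟨f, hf, e⟩
      · obtain ⟨g, p, q⟩ := step hL hk hf e
        exact ih g p (by omega)
  obtain ⟨f, hf⟩ := exists_bal k (by omega) L hL (fun c => (hm c).le)
  obtain ⟨g, p, q⟩ := key _ f hf le_rfl
  have nc : ∀ a ∈ A, ∀ v, v ≠ a → g v ≠ g a := fun a aA v hv e =>
    notMem_empty a (q ▸ mem_filter.2 ⟨aA, v, hv, e⟩)
  refine ⟨g, p.1, fun u v h => ?_, p.prop (by omega) hm⟩
  rcases hG u v h with r | r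
  · exact (nc u r v h.ne.symm).symm
  · exact nc v r u h.ne

lemma lower {k : ℕ} (G : SimpleGraph V) {A : Finset V} (ha : A.Nonempty)
    (hG : ∀ u ∈ A, ∀ v, v ≠ u → G.Adj u v) (hk : 1 ≤ k) (h : PropChoosable G k) :
    Fintype.card V + A.card ≤ 2 * k := by
  obtain ⟨f, h1, h2, h3⟩ := h (fun _ => range k) (by simp)
  have m1 : ∀ c, c < k → mult (fun _ : V => range k) c = Fintype.card V := fun c hc => by
    simp [mult, hc]
  have one : ∀ a ∈ A, cnt f (f a) ≤ 1 := fun a aA => by
    have q : ∀ v, f v = f a → v = a := fun v e => by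
      by_contra p
      exact h2 a v (hG a aA v p) e.symm
    exact card_le_one.2 (fun u hu v hv =>
      (q u (mem_filter.1 hu).2).trans (q v (mem_filter.1 hv).2).symm)
  obtain ⟨a, aA⟩ := ha
  have fl : ⌊(Fintype.card V : ℚ) / k⌋₊ ≤ 1 := by
    have := one a aA
    rcases h3 (f a) ⟨a, h1 a⟩ with e | e <;> rw [m1 _ (mem_range.1 (h1 a))] at e
    · omega
    · exact (Nat.floor_le_ceil _).trans (by omega)
  have ce : ⌈(Fintype.card V : ℚ) / k⌉₊ ≤ 2 := (Nat.ceil_le_floor_add_one _).trans (by omega)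
  have two : ∀ c ∈ range k, cnt f c ≤ 2 := fun c hc => by
    rcases h3 c ⟨a, hc⟩ with e | e <;> rw [m1 _ (mem_range.1 hc)] at e <;> omega
  have inj : Set.InjOn f A := fun u hu v _ e => by
    by_contra p
    exact h2 u v (hG u hu v (Ne.symm p)) e
  have sub : A.image f ⊆ range k := fun c hc => by
    obtain ⟨x, -, rfl⟩ := mem_image.1 hc
    exact h1 x
  have tot : Fintype.card V = ∑ c ∈ range k, cnt f c :=
    card_eq_sum_card_fiberwise (f := f) (s := univ) (fun v _ => mem_coe.2 (h1 v))
  rw [← sum_sdiff sub] at tot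
  have s1 := sum_le_card_nsmul (range k \ A.image f) (fun c => cnt f c) 2 (fun c hc => two c (mem_sdiff.1 hc).1)
  have s2 := sum_le_card_nsmul (A.image f) (fun c => cnt f c) 1 (fun c hc => by
    obtain ⟨x, hx, rfl⟩ := mem_image.1 hc
    exact one x hx)
  have := card_le_card sub
  rw [card_sdiff_of_subset sub] at s1
  rw [card_image_of_injOn inj, card_range, smul_eq_mul] at *
  omega

lemma main {t : ℕ} (ht : 2 ≤ t) (n : Fin t → ℕ) (j : Fin t) (h : ∀ i, i ≠ j → n i = 1) :
    chiPC (SimpleGraph.completeMultipartiteGraph (fun i => Fin (n i))) = ∑ i, (n i + 1) / 2 := by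
  set A : Finset (Σ i, Fin (n i)) := univ.filter (fun v => v.1 ≠ j) with hA
  have s1 : ∑ i ∈ univ.erase j, n i = t - 1 := by
    rw [sum_congr rfl (fun i hi => h i (ne_of_mem_erase hi))]
    simp
  have s2 : ∑ i ∈ univ.erase j, (n i + 1) / 2 = t - 1 := by
    rw [sum_congr rfl (g := fun _ => 1) (fun i hi => by rw [h i (ne_of_mem_erase hi)])]
    simp
  have cV : Fintype.card (Σ i, Fin (n i)) = n j + (t - 1) := by
    rw [Fintype.card_sigma, ← add_sum_erase _ _ (mem_univ j)]
    simp only [Fintype.card_fin, s1]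
  have cA : A.card = t - 1 := by
    have : A = (univ.erase j).sigma (fun _ => univ) := by ext v; simp [hA]
    rw [this, card_sigma, ← s1]
    simp
  have ne : A.Nonempty := card_pos.1 (by omega)
  rw [← add_sum_erase _ _ (mem_univ j), s2]
  have mem : (n j + 1) / 2 + (t - 1) ∈ {k | 1 ≤ k ∧ PropChoosable
      (SimpleGraph.completeMultipartiteGraph (fun i => Fin (n i))) k} := by
    refine ⟨by omega, upper _ ne (fun u v e => ?_) (by omega)⟩
    by_contra c
    simp only [hA, mem_filter, mem_univ, true_and, not_or, not_not] at c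
    exact e (c.1.trans c.2.symm)
  refine le_antisymm (Nat.sInf_le mem) ?_
  obtain ⟨p, q⟩ := Nat.sInf_mem ⟨_, mem⟩
  have := lower _ ne (fun u hu v hv => ?_) p q
  · unfold chiPC
    omega
  · obtain ⟨i, x⟩ := u
    obtain ⟨i', y⟩ := v
    intro e
    simp only at e
    subst e
    have : n i = 1 := h i (mem_filter.1 hu).2
    exact hv (by congr 1; ext; have := x.2; have := y.2; omega)

end Pool.Agent.H.MP_f0eba7_co
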